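import Mathlib
import Pool.Agent.LeoG.UpStmts

/-!
# LEOG, module KET: the compact set of the main part and its volume
-/

set_option autoImplicit false

open NumberField IsDedekindDomain Module MeasureTheory Filter Topology
open Pool.Agent.LeoK

namespace Pool.Agent.LeoG.H51

lemma cont_dt {σ : Type} (s : σ) : Continuous fun u : σ → Fin 4 → ℝ => dt (u s) := by
  unfold dt
  fun_prop

lemma cont_th : Continuous fun u : Fin 4 → ℝ => th u := by
  refine continuous_pi fun i => ?_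
  fin_cases i
  · show Continuous fun u : Fin 4 → ℝ => u 0 ^ 3 + u 2 ^ 3
    fun_prop
  · show Continuous fun u : Fin 4 → ℝ => 3 * (u 0 ^ 2 * u 1 + u 2 ^ 2 * u 3)
    fun_prop
  · show Continuous fun u : Fin 4 → ℝ => 3 * (u 0 * u 1 ^ 2 + u 2 * u 3 ^ 2)
    fun_prop
  · show Continuous fun u : Fin 4 → ℝ => u 1 ^ 3 + u 3 ^ 3
    fun_prop

lemma th_zero (u : Fin 4 → ℝ) : th u 0 = u 0 ^ 3 + u 2 ^ 3 := rfl

lemma th_one (u : Fin 4 → ℝ) : th u 1 = 3 * (u 0 ^ 2 * u 1 + u 2 ^ 2 * u 3) := rfl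

/-- bounds at one place -/
lemma bd_one (η c₁ Cx Cm Cb : ℝ) (hη : 0 < η) (hc₁ : 0 < c₁) (hCx : 0 ≤ Cx)
    (hCm : 0 ≤ Cm) (hCb : 0 ≤ Cb) :
    ∃ C : ℝ, 0 ≤ C ∧ ∀ u : Fin 4 → ℝ, η ≤ |u 0 ^ 3 + u 2 ^ 3| → c₁ ≤ dt u →
      |(u 0 ^ 2 * u 1 + u 2 ^ 2 * u 3) / (u 0 ^ 3 + u 2 ^ 3)| ≤ Cb →
      (u 0 ^ 2 + u 2 ^ 2) / (2 * dt u) ≤ Cx → 27 * dt u ^ 6 ≤ Cm → ∀ i, |u i| ≤ C := by
  set Cd : ℝ := 1 + Cm with hCd
  have hCd0 : 0 ≤ Cd := by positivity
  set P : ℝ := 1 + 2 * Cd * Cx with hP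
  have hP0 : 0 ≤ P := by positivity
  have hP1 : 1 ≤ P := by
    have : 0 ≤ 2 * Cd * Cx := by positivity
    linarith
  set Q : ℝ := P * Cb + P * Cd / η with hQ
  have hQ0 : 0 ≤ Q := by positivity
  refine ⟨P + Q, by positivity, ?_⟩
  intro u hA hd hb hx hm
  have hd0 : 0 < dt u := lt_of_lt_of_le hc₁ hd
  have hA0 : 0 < |u 0 ^ 3 + u 2 ^ 3| := lt_of_lt_of_le hη hA
  have hA1 : u 0 ^ 3 + u 2 ^ 3 ≠ 0 := abs_pos.1 hA0
  have hdC : dt u ≤ Cd := by
    rcases le_or_gt (dt u) 1 with h | h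
    · linarith
    · have h1 : dt u ≤ dt u ^ 6 := le_self_pow₀ h.le (by norm_num)
      have h2 : 0 ≤ dt u ^ 6 := by positivity
      linarith
  have hsum : u 0 ^ 2 + u 2 ^ 2 ≤ P := by
    rw [div_le_iff₀ (by positivity)] at hx
    have h1 : Cx * (2 * dt u) ≤ Cx * (2 * Cd) := by gcongr
    have h2 : Cx * (2 * Cd) = P - 1 := by rw [hP]; ring
    linarith
  have h02 : u 0 ^ 2 ≤ P := by nlinarith [sq_nonneg (u 2)]
  have h22 : u 2 ^ 2 ≤ P := by nlinarith [sq_nonneg (u 0)]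
  have habs : ∀ x : ℝ, x ^ 2 ≤ P → |x| ≤ P := by
    intro x hx
    rcases le_or_gt (|x|) 1 with h | h
    · linarith
    · have h1 : |x| ≤ |x| ^ 2 := le_self_pow₀ h.le (by norm_num)
      rw [sq_abs] at h1
      linarith
  have h0 := habs _ h02
  have h2 := habs _ h22
  set fb : ℝ := (u 0 ^ 2 * u 1 + u 2 ^ 2 * u 3) / (u 0 ^ 3 + u 2 ^ 3) with hfb
  have hfbA : fb * (u 0 ^ 3 + u 2 ^ 3) = u 0 ^ 2 * u 1 + u 2 ^ 2 * u 3 := by
    rw [hfb, div_mul_cancel₀ _ hA1]
  have hdt : dt u = u 0 * u 3 - u 1 * u 2 := rfl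
  have e1 : u 1 = u 0 * fb - u 2 ^ 2 * dt u / (u 0 ^ 3 + u 2 ^ 3) := by
    rw [eq_sub_iff_add_eq, ← eq_sub_iff_add_eq', div_eq_iff hA1, hdt]
    linear_combination (-u 0) * hfbA
  have e3 : u 3 = u 2 * fb + u 0 ^ 2 * dt u / (u 0 ^ 3 + u 2 ^ 3) := by
    rw [← sub_eq_iff_eq_add', eq_div_iff hA1, hdt]
    linear_combination (-u 2) * hfbA
  have hdiv : ∀ x : ℝ, x ^ 2 ≤ P → |x ^ 2 * dt u / (u 0 ^ 3 + u 2 ^ 3)| ≤ P * Cd / η := by
    intro x hx
    rw [abs_div, abs_mul, abs_of_pos hd0, abs_of_nonneg (sq_nonneg x)]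
    gcongr
  have h1 : |u 1| ≤ Q := by
    rw [e1]
    refine (abs_sub _ _).trans (add_le_add ?_ (hdiv _ h22))
    rw [abs_mul]
    gcongr
  have h3 : |u 3| ≤ Q := by
    rw [e3]
    refine (abs_add_le _ _).trans (add_le_add ?_ (hdiv _ h02))
    rw [abs_mul]
    gcongr
  intro i
  fin_cases i
  · exact h0.trans (by linarith)
  · exact h1.trans (by linarith)
  · exact h2.trans (by linarith)
  · exact h3.trans (by linarith)

theorem ket (hcon : LeoK.ConStmt) (hvol : VolStmt) (hthu : ThuStmt) (hthb : ThbStmt) :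
    KetStmt := by
  intro k _ _ hk Φ T η hT hη
  obtain ⟨hcard, hD, hvF, hcF, hiv, hvv⟩ := hcon k hk Φ
  set n := finrank ℚ k with hn
  have hcF0 : 0 < Φ.cF := by linarith
  set c₀ : ℝ := η ^ (1 / n : ℝ) / Φ.cF with hc₀
  have hc₀0 : 0 < c₀ := div_pos (Real.rpow_pos_of_pos hη _) hcF0
  set c₁ : ℝ := (c₀ / 27) ^ (1 / 6 : ℝ) with hc₁
  have hc₁0 : 0 < c₁ := Real.rpow_pos_of_pos (by positivity) _
  have hc₁6 : 27 * c₁ ^ 6 = c₀ := by
    have h1 : c₁ ^ 6 = c₀ / 27 := by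
      rw [hc₁, ← Real.rpow_natCast, ← Real.rpow_mul (by positivity)]
      norm_num
    rw [h1]
    ring
  set G : Set (Sg k → ℝ) := closure (ZSpan.fundamentalDomain Φ.B) with hG
  set FT : Set (Sg k → ℝ) := Φ.F ∩ {x | ∏ s, x s ≤ T} with hFT
  set F1 : Set (Sg k → ℝ) := Φ.F ∩ {x | ∏ s, x s ≤ 1} with hF1
  obtain ⟨hT1, hT2, hT3, hT4⟩ := hvv T hT
  obtain ⟨h11, h12, h13, h14⟩ := hvv 1 one_pos
  -- the set
  set C0 : Set (Sg k → Fin 4 → ℝ) :=
    {u | (∀ s, η ≤ |u s 0 ^ 3 + u s 2 ^ 3|) ∧ ∀ s, c₁ ≤ dt (u s)} with hC0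
  have hC0c : IsClosed C0 := by
    rw [hC0, Set.ofPred_and, Set.ofPred_forall, Set.ofPred_forall]
    refine IsClosed.inter (isClosed_iInter fun s => ?_) (isClosed_iInter fun s => ?_)
    · exact isClosed_le continuous_const (by fun_prop)
    · exact isClosed_le continuous_const (cont_dt s)
  set fb : (Sg k → Fin 4 → ℝ) → Sg k → ℝ := fun u s =>
    (u s 0 ^ 2 * u s 1 + u s 2 ^ 2 * u s 3) / (u s 0 ^ 3 + u s 2 ^ 3) with hfb
  set fx : (Sg k → Fin 4 → ℝ) → Sg k → ℝ := fun u s =>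
    (u s 0 ^ 2 + u s 2 ^ 2) / (2 * dt (u s)) with hfx
  set fm : (Sg k → Fin 4 → ℝ) → Sg k → ℝ := fun u s => 27 * dt (u s) ^ 6 with hfm
  have hfbc : ContinuousOn fb C0 := by
    refine continuousOn_pi.2 fun s => ?_
    refine ContinuousOn.div (by fun_prop) (by fun_prop) fun u hu => ?_
    have h1 : 0 < |u s 0 ^ 3 + u s 2 ^ 3| := lt_of_lt_of_le hη (hu.1 s)
    exact abs_pos.1 h1
  have hfxc : ContinuousOn fx C0 := by
    refine continuousOn_pi.2 fun s => ?_
    refine ContinuousOn.div (by fun_prop) (continuous_const.mul (cont_dt s)).continuousOn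
      fun u hu => ?_
    have h1 : 0 < dt (u s) := lt_of_lt_of_le hc₁0 (hu.2 s)
    positivity
  have hfmc : Continuous fm :=
    continuous_pi fun s => continuous_const.mul ((cont_dt s).pow 6)
  set K' : Set (Sg k → Fin 4 → ℝ) :=
    (C0 ∩ fb ⁻¹' G) ∩ (C0 ∩ fx ⁻¹' closure FT) ∩ (fm ⁻¹' closure F1) with hK'
  have hKc : IsClosed K' := by
    refine IsClosed.inter (IsClosed.inter ?_ ?_) ?_
    · exact hfbc.preimage_isClosed_of_isClosed hC0c isClosed_closure
    · exact hfxc.preimage_isClosed_of_isClosed hC0c isClosed_closure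
    · exact isClosed_closure.preimage hfmc
  -- bounds
  have hGb : Bornology.IsBounded G := (ZSpan.fundamentalDomain_isBounded Φ.B).closure
  obtain ⟨Cb, hCb⟩ := hGb.exists_norm_le
  obtain ⟨Cx, hCx⟩ := hT4.closure.exists_norm_le
  obtain ⟨Cm, hCm⟩ := h14.closure.exists_norm_le
  obtain ⟨C, hC0', hC⟩ := bd_one η c₁ (max Cx 0) (max Cm 0) (max Cb 0) hη hc₁0 (le_max_right _ _)
    (le_max_right _ _) (le_max_right _ _)
  have hKb : K' ⊆ Set.pi Set.univ fun _ : Sg k => Set.pi Set.univ fun _ : Fin 4 =>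
      Set.Icc (-C) C := by
    rintro w ⟨⟨⟨hw1, hw2⟩, ⟨-, hw3⟩⟩, hw4⟩
    intro s _ i _
    have h1 : ‖fb w‖ ≤ Cb := hCb _ hw2
    have h2 : ‖fx w‖ ≤ Cx := hCx _ hw3
    have h3 : ‖fm w‖ ≤ Cm := hCm _ hw4
    have h := hC (w s) (hw1.1 s) (hw1.2 s)
      (((norm_le_pi_norm (fb w) s).trans h1).trans (le_max_left _ _))
      (((le_abs_self _).trans ((norm_le_pi_norm (fx w) s).trans h2)).trans (le_max_left _ _))
      (((le_abs_self _).trans ((norm_le_pi_norm (fm w) s).trans h3)).trans (le_max_left _ _)) i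
    exact abs_le.1 h
  have hKcomp : IsCompact K' := by
    refine IsCompact.of_isClosed_subset ?_ hKc hKb
    exact isCompact_univ_pi fun _ => isCompact_univ_pi fun _ => isCompact_Icc
  set tt : (Sg k → Fin 4 → ℝ) → Sg k → Fin 4 → ℝ := fun u s => th (u s) with htt
  have httc : Continuous tt :=
    continuous_pi fun s => cont_th.comp (continuous_apply s)
  have hfb1 : ∀ u : Sg k → Fin 4 → ℝ, (fun s => tt u s 1 / (3 * tt u s 0)) = fb u := by
    intro u
    funext s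
    show th (u s) 1 / (3 * th (u s) 0) = _
    rw [th_zero, th_one, mul_div_mul_left _ _ (by norm_num : (3 : ℝ) ≠ 0)]
  have hfm1 : ∀ u : Sg k → Fin 4 → ℝ, (fun s => mm (tt u s)) = fm u := by
    intro u
    funext s
    exact (hthu (u s)).1
  have hfx1 : ∀ u : Sg k → Fin 4 → ℝ, (∀ s, 0 < dt (u s)) →
      (fun s => hz (tt u s) 1 0) = fx u := by
    intro u hu
    funext s
    have h1 := (hthu (u s)).2.2 (hu s).ne' 1 0
    show hz (th (u s)) 1 0 = _
    rw [h1, abs_of_pos (hu s)]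
    simp only [mul_one, mul_zero, add_zero, hfx]
  refine ⟨tt '' K', hKcomp.image httc, ?_, ?_⟩
  · -- the volume
    set A : Set (Sg k → ℝ) := closure FT ∩ {x | ∀ s, 0 < x s} with hA
    set M : Set (Sg k → ℝ) := closure F1 ∩ {x | ∀ s, 0 < x s} with hM
    have hpos : MeasurableSet {x : Sg k → ℝ | ∀ s, 0 < x s} := by
      rw [Set.ofPred_forall]
      exact MeasurableSet.iInter fun s => measurableSet_lt measurable_const (measurable_pi_apply s)
    have hv := hvol (Sg k) G A M isClosed_closure.measurableSet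
      (isClosed_closure.measurableSet.inter hpos) (isClosed_closure.measurableSet.inter hpos)
      (fun x hx => hx.2) (fun x hx => hx.2)
    have hsub : tt '' K' ⊆ {w : Sg k → Fin 4 → ℝ | (∀ s, w s 0 ≠ 0) ∧ (∀ s, 0 < mm (w s)) ∧
        (fun s => w s 1 / (3 * w s 0)) ∈ G ∧ (fun s => hz (w s) 1 0) ∈ A ∧
        (fun s => mm (w s)) ∈ M} := by
      rintro _ ⟨u, ⟨⟨⟨hw1, hw2⟩, ⟨-, hw3⟩⟩, hw4⟩, rfl⟩
      have ha : ∀ s, u s 0 ^ 3 + u s 2 ^ 3 ≠ 0 := fun s =>
        abs_pos.1 (lt_of_lt_of_le hη (hw1.1 s))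
      have hd : ∀ s, 0 < dt (u s) := fun s => lt_of_lt_of_le hc₁0 (hw1.2 s)
      have hm : ∀ s, 0 < fm u s := fun s => by
        have := hd s
        show 0 < 27 * dt (u s) ^ 6
        positivity
      have hx : ∀ s, 0 < fx u s := by
        intro s
        refine div_pos ?_ (by have := hd s; positivity)
        by_contra hcon
        have h1 : u s 0 ^ 2 + u s 2 ^ 2 ≤ 0 := not_lt.1 hcon
        have h2 : u s 0 = 0 := by nlinarith [sq_nonneg (u s 0), sq_nonneg (u s 2)]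
        have h3 : u s 2 = 0 := by nlinarith [sq_nonneg (u s 0), sq_nonneg (u s 2)]
        apply ha s
        rw [h2, h3]
        ring
      have e1 := hfb1 u
      have e2 := hfm1 u
      have e3 := hfx1 u hd
      refine ⟨ha, ?_, ?_, ?_, ?_⟩
      · intro s
        have h1 : mm (tt u s) = fm u s := congrFun e2 s
        rw [h1]
        exact hm s
      · rw [e1]
        exact hw2
      · rw [e3]
        exact ⟨hw3, hx⟩
      · rw [e2]
        exact ⟨hw4, hm⟩
    have hvG : volume G = volume (ZSpan.fundamentalDomain Φ.B) := by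
      refine le_antisymm ?_ (measure_mono subset_closure)
      have h1 : volume (parallelepiped Φ.B) = volume (ZSpan.fundamentalDomain Φ.B) :=
        (measure_congr (ZSpan.fundamentalDomain_ae_parallelepiped Φ.B volume)).symm
      rw [← h1]
      refine measure_mono ?_
      refine closure_minimal (ZSpan.fundamentalDomain_subset_parallelepiped Φ.B) ?_
      exact (Basis.parallelepiped Φ.B).isCompact.isClosed
    have hvGt : volume (ZSpan.fundamentalDomain Φ.B) ≠ ⊤ :=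
      (ZSpan.fundamentalDomain_isBounded Φ.B).measure_lt_top.ne
    have hle : volume (tt '' K') ≤
        ENNReal.ofReal (Real.pi ^ n) * volume (ZSpan.fundamentalDomain Φ.B) *
        volume FT * volume F1 := by
      refine (measure_mono hsub).trans ?_
      rw [hv, hvG, hcard]
      have hvA : volume A ≤ volume FT := by
        rw [← hT3]
        exact measure_mono Set.inter_subset_left
      have hvM : volume M ≤ volume F1 := by
        rw [← h13]
        exact measure_mono Set.inter_subset_left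
      exact mul_le_mul' (mul_le_mul' le_rfl hvA) hvM
    have hlt : ENNReal.ofReal (Real.pi ^ n) * volume (ZSpan.fundamentalDomain Φ.B) *
        volume FT * volume F1 ≠ ⊤ :=
      ENNReal.mul_ne_top (ENNReal.mul_ne_top (ENNReal.mul_ne_top ENNReal.ofReal_ne_top hvGt) hT2)
        h12
    have h := ENNReal.toReal_mono hlt hle
    rw [ENNReal.toReal_mul, ENNReal.toReal_mul, ENNReal.toReal_mul,
      ENNReal.toReal_ofReal (by positivity), hT1, h11, mul_one] at h
    have e : (volume (ZSpan.fundamentalDomain Φ.B)).toReal = Φ.D := rfl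
    rw [e, mul_comm Φ.vF T] at h
    exact h
  · -- membership
    intro w ha hm hb hx hxT hmF hηm hm1
    have hex : ∀ s, ∃ u : Fin 4 → ℝ, 0 < dt u ∧ th u = w s := fun s => hthb.1 (w s) (hm s)
    choose u hu1 hu2 using hex
    have hw : tt u = w := by
      funext s
      exact hu2 s
    rw [← hw] at ha hb hx hxT hmF hηm hm1
    refine ⟨u, ?_, hw⟩
    have e1 := hfb1 u
    have e2 := hfm1 u
    have e3 := hfx1 u hu1
    rw [e1] at hb
    rw [e3] at hx
    rw [e2] at hmF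
    have hxT' : ∏ s, fx u s ≤ T := by
      have : ∏ s, hz (tt u s) 1 0 = ∏ s, fx u s :=
        Finset.prod_congr rfl fun s _ => congrFun e3 s
      rw [← this]
      exact hxT
    have hpm : ∏ s, mm (tt u s) = ∏ s, fm u s :=
      Finset.prod_congr rfl fun s _ => congrFun e2 s
    rw [hpm] at hηm hm1
    have hM1 : fm u ∈ F1 := ⟨hmF, hm1⟩
    have hXT : fx u ∈ FT := ⟨hx, hxT'⟩
    have hc : ∀ s, c₁ ≤ dt (u s) := by
      intro s
      have h1 := (hiv _ hmF s).2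
      have h2 : c₀ ≤ fm u s := by
        rw [hc₀, div_le_iff₀ hcF0, mul_comm]
        exact (Real.rpow_le_rpow hη.le hηm (by positivity)).trans h1
      have h3 : c₁ ^ 6 ≤ dt (u s) ^ 6 := by
        have h4 : fm u s = 27 * dt (u s) ^ 6 := rfl
        rw [h4, ← hc₁6] at h2
        linarith
      exact le_of_pow_le_pow_left₀ (by norm_num) (hu1 s).le h3
    exact ⟨⟨⟨⟨ha, hc⟩, subset_closure hb⟩, ⟨⟨ha, hc⟩, subset_closure hXT⟩⟩,
      subset_closure hM1⟩

end Pool.Agent.LeoG.H51
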